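import Pool.Agent.KS6_47.SJ.H227.EN.Lang
import Pool.Agent.KS6_47.SJ.H227.Use
import Pool.Agent.KS6_47.SJ.H227.Maps

set_option autoImplicit false

open FirstOrder FirstOrder.Language

namespace Pool.Agent.KS6_47.SJ.H227.EN

/-! ## Types of injective sequences of elements -/

section core
variable {M : Type} [LA.Structure M]

/-- level `n` type of an (injective) sequence: level 0 is the atomic diagram, level `n+1` is the
join of level `n` with the set of all `⟨k, u⟩`, `u` a (coded) string, such that `u` is an initial
segment of the level `n` type of some injective sequence `b'` agreeing with `b` below `k`. -/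
noncomputable def E : ℕ → (ℕ → M) → (ℕ → Bool)
  | 0, b => Dg b
  | n + 1, b => join (E n b) (fun z => open Classical in decide
      (∃ u : List Bool, (Encodable.decode (Nat.unpair z).2 : Option (List Bool)) = some u ∧
        ∃ b' : ℕ → M, Function.Injective b' ∧ (∀ i < (Nat.unpair z).1, b' i = b i) ∧
          pre (E n b') u.length = u))

/-- the tree of all (coded) initial segments of level `n` types of injective sequences -/
noncomputable def Tr (M : Type) [LA.Structure M] (n : ℕ) : ℕ → Bool := fun z =>
  open Classical in decide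
    (∃ u : List Bool, (Encodable.decode z : Option (List Bool)) = some u ∧
      ∃ b' : ℕ → M, Function.Injective b' ∧ pre (E n b') u.length = u)

/-- positions of the level `n` type which only depend on the first `k` elements -/
def Pos : ℕ → ℕ → ℕ → Prop
  | 0, k, z => z < k
  | n + 1, k, z => (z % 2 = 0 ∧ Pos n k (z / 2)) ∨ (z % 2 = 1 ∧ (Nat.unpair (z / 2)).1 ≤ k)

/-- predicates on injective sequences decided by finitely many bits of some level type -/
def EDef (Q : (ℕ → M) → Prop) : Prop :=
  ∃ (n N : ℕ) (g : List Bool → Prop), ∀ b : ℕ → M, Function.Injective b → (Q b ↔ g (pre (E n b) N))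

/-- code of an atomic fact -/
def cd (c i j l : ℕ) : ℕ := Nat.pair c (Nat.pair i (Nat.pair j l))

/-- the atomic diagram (of a sequence `b`) shows that `b 0` is the value of a numeral: there are
`b (L 0) = 0`, `b (L (i+1)) = b (L i) + 1`, ..., and the last entry of the list `L` is `0` -/
def SP (X : ℕ → Bool) : Prop :=
  ∃ (L : List ℕ) (j : ℕ), X (cd 3 (L.getD 0 0) 0 0) = true ∧ X (cd 4 j 0 0) = true ∧
    (∀ i, i + 1 < L.length → X (cd 0 (L.getD i 0) j (L.getD (i + 1) 0)) = true) ∧
    L.getLast? = some 0

/-- the ultrapower of `M` (nonprincipal ultrafilter on `ℕ`) -/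
abbrev UP (M : Type) : Type := ((Filter.hyperfilter ℕ : Ultrafilter ℕ) : Filter ℕ).Product (fun _ : ℕ => M)

/-- the sequence of elements of the ultrapower given by a sequence of sequences -/
noncomputable def ups (β : ℕ → ℕ → M) : ℕ → UP M := fun i => ((fun N => β N i : ℕ → M) : UP M)

end core

/-! ## Definability and arithmetic -/

section arith

/-- compatibility of the algebraic structure with the `LA`-structure -/
structure Compat (M : Type) [CommSemiring M] [LinearOrder M] [LA.Structure M] : Prop where
  zero : (Structure.funMap (L := LA) AF.zero ![] : M) = 0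
  one : (Structure.funMap (L := LA) AF.one ![] : M) = 1
  add : ∀ x y : M, Structure.funMap (L := LA) AF.add ![x, y] = x + y
  mul : ∀ x y : M, Structure.funMap (L := LA) AF.mul ![x, y] = x * y
  lt : ∀ x y : M, Structure.RelMap (L := LA) AR.lt ![x, y] ↔ x < y
  disc : ∀ x : M, x < 1 → x = 0

/-- `R` is a first-order definable predicate of the values of the variables `x 0, x 1, ...` -/
def Dfn {M : Type} [LA.Structure M] (R : (ℕ → M) → Prop) : Prop :=
  ∃ φ : LA.Formula ℕ, ∀ x, φ.Realize x ↔ R x

/-- `f` is given by a term -/
def Trm {M : Type} [LA.Structure M] (f : (ℕ → M) → M) : Prop :=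
  ∃ t : LA.Term ℕ, ∀ x, t.realize x = f x

/-- `f : ℕ → ℕ` is represented by a formula in `M` -/
def RepF (M : Type) [CommSemiring M] [LA.Structure M] (f : ℕ → ℕ) : Prop :=
  ∃ G : M → M → Prop, Dfn (fun x : ℕ → M => G (x 0) (x 1)) ∧ ∀ (n : ℕ) (y : M), G n y ↔ y = (f n : M)

/-- the set `X` is coded by a formula in `M` -/
def RepM (M : Type) [CommSemiring M] [LA.Structure M] : Set (ℕ → Bool) :=
  {X | ∃ S : M → Prop, Dfn (fun x : ℕ → M => S (x 0)) ∧ ∀ n : ℕ, S n ↔ X n = true}

/-- the beta function: `v` is the remainder of `a` modulo `1 + (i+1) c` -/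
def Beta {M : Type} [CommSemiring M] [LinearOrder M] (a c i v : M) : Prop :=
  v < 1 + (i + 1) * c ∧ ∃ q, a = q * (1 + (i + 1) * c) + v

end arith

end Pool.Agent.KS6_47.SJ.H227.EN
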