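import Pool.Agent.KS6_47.SJ.H227.ENJ.Defs

set_option autoImplicit false

open FirstOrder FirstOrder.Language


namespace Pool.Agent.KS6_47.SJ.H227.EN



/-- quantification; `k` is a fresh variable -/
theorem dfn_ex {M : Type} [LA.Structure M] (Q : (ℕ → M) → M → Prop) (k : ℕ)
    (hk : ∀ x y v, Q (Function.update x k v) y ↔ Q x y) (h : Dfn (fun x => Q x (x k))) :
    Dfn (fun x => ∃ y, Q x y) := by
  classical
  obtain ⟨φ, hφ'⟩ := h
  have hφ : ∀ x, φ.Realize x ↔ Q x (x k) := hφ'
  let g : ℕ → ℕ ⊕ Unit := fun i => if i = k then Sum.inr () else Sum.inl i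
  refine ⟨Formula.iExs Unit (φ.relabel g), fun x => ?_⟩
  rw [Formula.realize_iExs]
  have key : ∀ i : Unit → M, (Sum.elim x i) ∘ g = Function.update x k (i ()) := by
    intro i
    funext j
    simp only [Function.comp_apply, g]
    by_cases hj : j = k
    · subst hj; simp
    · simp [hj]
  constructor
  · rintro ⟨i, hi⟩
    rw [Formula.realize_relabel, key, hφ] at hi
    rw [Function.update_self, hk] at hi
    exact ⟨i (), hi⟩
  · rintro ⟨y, hy⟩
    refine ⟨fun _ => y, ?_⟩
    rw [Formula.realize_relabel, key, hφ, Function.update_self, hk]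
    exact hy

end Pool.Agent.KS6_47.SJ.H227.EN
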