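import Pool.Agent.KS6_47.SJ.H227.ENJ.Defs
import Pool.Agent.KS6_47.SJ.H227.ENJ.P_dfn_bool
import Pool.Agent.KS6_47.SJ.H227.ENJ.P_dfn_ex

set_option autoImplicit false

open FirstOrder FirstOrder.Language


namespace Pool.Agent.KS6_47.SJ.H227.EN



theorem dfn_all {M : Type} [LA.Structure M] (Q : (ℕ → M) → M → Prop) (k : ℕ)
    (hk : ∀ x y v, Q (Function.update x k v) y ↔ Q x y) (h : Dfn (fun x => Q x (x k))) :
    Dfn (fun x => ∀ y, Q x y) := by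
  have h1 : Dfn (fun x : ℕ → M => ∃ y, ¬ Q x y) :=
    dfn_ex (fun x y => ¬ Q x y) k (fun x y v => not_congr (hk x y v)) (dfn_bool.2.1 _ h)
  have h2 : Dfn (fun x : ℕ → M => ¬ ∃ y, ¬ Q x y) := dfn_bool.2.1 _ h1
  obtain ⟨φ, hφ⟩ := h2
  refine ⟨φ, fun x => (hφ x).trans ?_⟩
  constructor
  · intro h3 y
    by_contra h4
    exact h3 ⟨y, h4⟩
  · rintro h3 ⟨y, h4⟩
    exact h4 (h3 y)

end Pool.Agent.KS6_47.SJ.H227.EN
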