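import Pool.Agent.KS6_47.SJ.H227.ENJ.Defs
import Pool.Agent.KS6_47.SJ.H227.ENJ.P_dfn_bool

set_option autoImplicit false

open FirstOrder FirstOrder.Language


namespace Pool.Agent.KS6_47.SJ.H227.EN



theorem trm_ops {M : Type} [CommSemiring M] [LinearOrder M] [LA.Structure M] (hc : Compat M) :
    (∀ k, Trm (fun x : ℕ → M => x k)) ∧
    (∀ n : ℕ, Trm (fun _ : ℕ → M => (n : M))) ∧
    (∀ f g : (ℕ → M) → M, Trm f → Trm g → Trm (fun x => f x + g x)) ∧
    (∀ f g : (ℕ → M) → M, Trm f → Trm g → Trm (fun x => f x * g x)) ∧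
    (∀ f g : (ℕ → M) → M, Trm f → Trm g → Dfn (fun x => f x = g x)) ∧
    (∀ f g : (ℕ → M) → M, Trm f → Trm g → Dfn (fun x => f x < g x)) ∧
    (∀ f g : (ℕ → M) → M, Trm f → Trm g → Dfn (fun x => f x ≤ g x)) := by
  have hadd : ∀ (s t : LA.Term ℕ) (x : ℕ → M), (tadd s t).realize x = s.realize x + t.realize x := by
    intro s t x
    exact (Term.realize_functions_apply₂ (L := LA) (f := (AF.add : LA.Functions 2))).trans (hc.add _ _)
  have hmul : ∀ (s t : LA.Term ℕ) (x : ℕ → M), (tmul s t).realize x = s.realize x * t.realize x := by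
    intro s t x
    exact (Term.realize_functions_apply₂ (L := LA) (f := (AF.mul : LA.Functions 2))).trans (hc.mul _ _)
  have h0 : ∀ x : ℕ → M, (t0 : LA.Term ℕ).realize x = 0 := by
    intro x
    rw [← hc.zero]
    refine (Term.realize_constants (L := LA) (c := (AF.zero : LA.Functions 0))).trans ?_
    show Structure.funMap (L := LA) AF.zero default = _
    congr 1
  have h1 : ∀ x : ℕ → M, (t1 : LA.Term ℕ).realize x = 1 := by
    intro x
    rw [← hc.one]
    refine (Term.realize_constants (L := LA) (c := (AF.one : LA.Functions 0))).trans ?_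
    show Structure.funMap (L := LA) AF.one default = _
    congr 1
  have hlt : ∀ f g : (ℕ → M) → M, Trm f → Trm g → Dfn (fun x => f x < g x) := by
    rintro f g ⟨s, hs⟩ ⟨t, ht⟩
    refine ⟨Relations.formula₂ (L := LA) AR.lt s t, fun x => ?_⟩
    refine (Formula.realize_rel₂ (L := LA) (R := (AR.lt : LA.Relations 2))).trans ?_
    rw [hs, ht]
    exact hc.lt _ _
  refine ⟨fun k => ⟨Term.var k, fun x => rfl⟩, ?_, ?_, ?_, ?_, hlt, ?_⟩
  · intro n
    refine ⟨num n, fun x => ?_⟩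
    induction n with
    | zero => show (t0 : LA.Term ℕ).realize x = _; rw [h0]; simp
    | succ n ih =>
      show (tadd (num n) t1 : LA.Term ℕ).realize x = _
      rw [hadd, ih, h1]; push_cast; rfl
  · rintro f g ⟨s, hs⟩ ⟨t, ht⟩
    exact ⟨tadd s t, fun x => by rw [hadd, hs, ht]⟩
  · rintro f g ⟨s, hs⟩ ⟨t, ht⟩
    exact ⟨tmul s t, fun x => by rw [hmul, hs, ht]⟩
  · rintro f g ⟨s, hs⟩ ⟨t, ht⟩
    refine ⟨Term.equal s t, fun x => ?_⟩
    rw [Formula.realize_equal, hs, ht]
  · intro f g hf hg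
    obtain ⟨φ, hφ⟩ := dfn_bool.2.1 _ (hlt g f hg hf)
    exact ⟨φ, fun x => (hφ x).trans not_lt⟩

end Pool.Agent.KS6_47.SJ.H227.EN
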