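import Pool.Agent.KS6_47.SJ.H227.ENJ.Defs
import Pool.Agent.KS6_47.SJ.H227.ENJ.P_dfn_bool
import Pool.Agent.KS6_47.SJ.H227.ENJ.P_trm_ops
import Pool.Agent.KS6_47.SJ.H227.ENJ.P_std_below

set_option autoImplicit false

open FirstOrder FirstOrder.Language


namespace Pool.Agent.KS6_47.SJ.H227.EN



/-- the graph of the pairing function -/
theorem repF_pair {M : Type} [CommSemiring M] [LinearOrder M] [IsStrictOrderedRing M]
    [CanonicallyOrderedAdd M] [LA.Structure M] (hc : Compat M) :
    ∃ G : M → M → M → Prop, Dfn (fun x : ℕ → M => G (x 0) (x 1) (x 2)) ∧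
      (∀ (a b : ℕ) (y : M), G a b y ↔ y = (Nat.pair a b : ℕ)) ∧
      (∀ (a b : M) (n : ℕ), G a b n ↔ a = ((Nat.unpair n).1 : ℕ) ∧ b = ((Nat.unpair n).2 : ℕ)) := by
  obtain ⟨-, hnot, hand, hor, himp, hiff⟩ := dfn_bool (M := M)
  obtain ⟨hvar, hnum, hadd, hmul, heq, hlt, hle⟩ := trm_ops hc
  let G : M → M → M → Prop := fun a b y => (a < b ∧ y = b * b + a) ∨ (b ≤ a ∧ y = a * a + a + b)
  have h2 : ∀ (a b : ℕ) (y : M), G a b y ↔ y = (Nat.pair a b : ℕ) := by
    intro a b y
    show (((a : M) < b ∧ y = b * b + a) ∨ ((b : M) ≤ a ∧ y = a * a + a + b)) ↔ _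
    unfold Nat.pair
    by_cases h : a < b
    · rw [if_pos h]
      have h1 : (a : M) < b := Nat.cast_lt.mpr h
      have h3 : ¬ ((b : M) ≤ a) := not_le.mpr h1
      push_cast
      simp only [h1, h3, true_and, false_and, or_false]
    · rw [if_neg h]
      have h3 : ¬ ((a : M) < b) := fun hh => h (Nat.cast_lt.mp hh)
      have h1 : (b : M) ≤ a := not_lt.mp h3
      push_cast
      simp only [h1, h3, true_and, false_and, false_or]
  refine ⟨G, ?_, h2, ?_⟩
  · exact hor _ _
      (hand _ _ (hlt _ _ (hvar 0) (hvar 1))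
        (heq _ _ (hvar 2) (hadd _ _ (hmul _ _ (hvar 1) (hvar 1)) (hvar 0))))
      (hand _ _ (hle _ _ (hvar 1) (hvar 0))
        (heq _ _ (hvar 2) (hadd _ _ (hadd _ _ (hmul _ _ (hvar 0) (hvar 0)) (hvar 0)) (hvar 1))))
  · intro a b n
    constructor
    · intro h
      have hab : a ≤ (n : M) ∧ b ≤ (n : M) := by
        rcases h with ⟨h1, h3⟩ | ⟨h1, h3⟩
        · rw [h3]
          refine ⟨le_add_self, ?_⟩
          have hb0 : b ≠ 0 := by
            intro hb
            rw [hb] at h1
            exact absurd h1 (not_lt.mpr zero_le)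
          have hb1 : 1 ≤ b := by
            by_contra hcon
            exact hb0 (hc.disc b (not_le.mp hcon))
          calc b = b * 1 := (mul_one b).symm
            _ ≤ b * b := mul_le_mul_right hb1 b
            _ ≤ b * b + a := le_self_add
        · rw [h3]
          constructor
          · calc a ≤ a * a + a := le_add_self
              _ ≤ a * a + a + b := le_self_add
          · exact le_add_self
      obtain ⟨m, -, hm⟩ := std_below hc n a hab.1
      obtain ⟨m', -, hm'⟩ := std_below hc n b hab.2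
      rw [hm, hm'] at h
      have h4 := (h2 m m' n).mp h
      have h5 : n = Nat.pair m m' := Nat.cast_injective h4
      rw [hm, hm', h5, Nat.unpair_pair]
      exact ⟨rfl, rfl⟩
    · rintro ⟨h1, h3⟩
      rw [h1, h3, h2, Nat.pair_unpair]

end Pool.Agent.KS6_47.SJ.H227.EN
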