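import Pool.Agent.KS6_47.SJ.H227.ENJ.Defs
import Pool.Agent.KS6_47.SJ.H227.ENJ.P_dfn_bool
import Pool.Agent.KS6_47.SJ.H227.ENJ.P_dfn_ex
import Pool.Agent.KS6_47.SJ.H227.ENJ.P_dfn_subst
import Pool.Agent.KS6_47.SJ.H227.ENJ.P_trm_ops
import Pool.Agent.KS6_47.SJ.H227.ENJ.P_beta_unique
import Pool.Agent.KS6_47.SJ.H227.ENJ.P_dfn_beta
import Pool.Agent.KS6_47.SJ.H227.ENJ.P_repF_pair

set_option autoImplicit false

open FirstOrder FirstOrder.Language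


namespace Pool.Agent.KS6_47.SJ.H227.EN



theorem rz_exk {M : Type} [LA.Structure M] (k : ℕ) (R : (ℕ → M) → Prop) (h : Dfn R) :
    Dfn (fun x => ∃ y, R (Function.update x k y)) := by
  apply dfn_ex (fun x y => R (Function.update x k y)) k
  · intro x y v
    rw [Function.update_idem]
  · simp only [Function.update_eq_self]
    exact h

theorem rz_congr {M : Type} [LA.Structure M] {R S : (ℕ → M) → Prop} (h : Dfn R)
    (hRS : ∀ x, R x ↔ S x) : Dfn S := by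
  obtain ⟨φ, hφ⟩ := h
  exact ⟨φ, fun x => (hφ x).trans (hRS x)⟩

theorem rz_Dg {M : Type} [CommSemiring M] [LinearOrder M] [LA.Structure M] (hc : Compat M)
    (b : ℕ → M) (z : ℕ) (D I J L : ℕ) (hD : (Nat.unpair z).1 = D)
    (hI : (Nat.unpair (Nat.unpair z).2).1 = I)
    (hJ : (Nat.unpair (Nat.unpair (Nat.unpair z).2).2).1 = J)
    (hL : (Nat.unpair (Nat.unpair (Nat.unpair z).2).2).2 = L) :
    Dg b z = true ↔ ((D = 0 ∧ b I + b J = b L) ∨ (D = 1 ∧ b I * b J = b L) ∨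
      (D = 2 ∧ b I < b J) ∨ (D = 3 ∧ ((0 : ℕ) : M) = b I) ∨ (D = 4 ∧ ((1 : ℕ) : M) = b I)) := by
  unfold Dg
  simp only [hc.zero, hc.one, hc.add, hc.mul, hc.lt, hD, hI, hJ, hL, Nat.cast_zero, Nat.cast_one]
  split_ifs with h0 h1 h2 h3 h4
  · subst h0; simp
  · subst h1; simp
  · subst h2; simp
  · subst h3; simp
  · subst h4; simp
  · simp [h0, h1, h2, h3, h4]

/-- the atomic diagram is coded by a formula -/
theorem repE_zero {M : Type} [CommSemiring M] [LinearOrder M] [IsStrictOrderedRing M]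
    [CanonicallyOrderedAdd M] [LA.Structure M] (hc : Compat M) :
    ∃ S : M → M → M → Prop, Dfn (fun x : ℕ → M => S (x 0) (x 1) (x 2)) ∧
      ∀ (z : ℕ) (a c : M) (b : ℕ → M), (∀ i ≤ z, Beta a c (i : M) (b i)) →
        (S a c z ↔ Dg b z = true) := by
  obtain ⟨G, hG, hG1, hG2⟩ := repF_pair hc
  obtain ⟨hvar, hnum, hadd, hmul, heq, hlt, hle⟩ := trm_ops hc
  obtain ⟨-, -, hand, hor, -, -⟩ := dfn_bool (M := M)
  have hGs : ∀ s t r : ℕ, Dfn (fun x : ℕ → M => G (x s) (x t) (x r)) := fun s t r =>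
    dfn_subst _ hG (fun m x => x (match m with | 0 => s | 1 => t | _ => r)) (fun m => hvar _)
  have hBs : ∀ s t r q : ℕ, Dfn (fun x : ℕ → M => Beta (x s) (x t) (x r) (x q)) := fun s t r q =>
    dfn_subst _ (dfn_beta hc) (fun m x => x (match m with | 0 => s | 1 => t | 2 => r | _ => q))
      (fun m => hvar _)
  refine ⟨fun a c z => ∃ d p i q j l u v w, G d p z ∧ G i q p ∧ G j l q ∧ Beta a c i u ∧
    Beta a c j v ∧ Beta a c l w ∧ ((d = ((0 : ℕ) : M) ∧ u + v = w) ∨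
      (d = ((1 : ℕ) : M) ∧ u * v = w) ∨ (d = ((2 : ℕ) : M) ∧ u < v) ∨
      (d = ((3 : ℕ) : M) ∧ ((0 : ℕ) : M) = u) ∨ (d = ((4 : ℕ) : M) ∧ ((1 : ℕ) : M) = u)), ?_, ?_⟩
  · have h0 : Dfn (fun x : ℕ → M => G (x 3) (x 4) (x 2) ∧ G (x 5) (x 6) (x 4) ∧
        G (x 7) (x 8) (x 6) ∧ Beta (x 0) (x 1) (x 5) (x 9) ∧ Beta (x 0) (x 1) (x 7) (x 10) ∧
        Beta (x 0) (x 1) (x 8) (x 11) ∧ ((x 3 = ((0 : ℕ) : M) ∧ x 9 + x 10 = x 11) ∨
      (x 3 = ((1 : ℕ) : M) ∧ x 9 * x 10 = x 11) ∨ (x 3 = ((2 : ℕ) : M) ∧ x 9 < x 10) ∨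
      (x 3 = ((3 : ℕ) : M) ∧ ((0 : ℕ) : M) = x 9) ∨ (x 3 = ((4 : ℕ) : M) ∧ ((1 : ℕ) : M) = x 9))) := by
      refine hand _ _ (hGs 3 4 2) (hand _ _ (hGs 5 6 4) (hand _ _ (hGs 7 8 6)
        (hand _ _ (hBs 0 1 5 9) (hand _ _ (hBs 0 1 7 10) (hand _ _ (hBs 0 1 8 11) ?_)))))
      refine hor _ _ (hand _ _ (heq _ _ (hvar 3) (hnum 0)) (heq _ _ (hadd _ _ (hvar 9) (hvar 10)) (hvar 11)))
        (hor _ _ (hand _ _ (heq _ _ (hvar 3) (hnum 1)) (heq _ _ (hmul _ _ (hvar 9) (hvar 10)) (hvar 11)))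
        (hor _ _ (hand _ _ (heq _ _ (hvar 3) (hnum 2)) (hlt _ _ (hvar 9) (hvar 10)))
        (hor _ _ (hand _ _ (heq _ _ (hvar 3) (hnum 3)) (heq _ _ (hnum 0) (hvar 9)))
        (hand _ _ (heq _ _ (hvar 3) (hnum 4)) (heq _ _ (hnum 1) (hvar 9))))))
    exact rz_congr (rz_exk 3 _ (rz_exk 4 _ (rz_exk 5 _ (rz_exk 6 _ (rz_exk 7 _ (rz_exk 8 _
      (rz_exk 9 _ (rz_exk 10 _ (rz_exk 11 _ h0))))))))) (fun x => Iff.rfl)
  · intro z a c b hβ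
    have hcz : CharZero M := IsStrictOrderedRing.toCharZero
    obtain ⟨D, hD⟩ : ∃ D, (Nat.unpair z).1 = D := ⟨_, rfl⟩
    obtain ⟨P, hP⟩ : ∃ P, (Nat.unpair z).2 = P := ⟨_, rfl⟩
    obtain ⟨I, hI⟩ : ∃ I, (Nat.unpair P).1 = I := ⟨_, rfl⟩
    obtain ⟨Q, hQ⟩ : ∃ Q, (Nat.unpair P).2 = Q := ⟨_, rfl⟩
    obtain ⟨J, hJ⟩ : ∃ J, (Nat.unpair Q).1 = J := ⟨_, rfl⟩
    obtain ⟨L, hL⟩ : ∃ L, (Nat.unpair Q).2 = L := ⟨_, rfl⟩
    have hPz : P ≤ z := hP ▸ Nat.unpair_right_le z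
    have hIz : I ≤ z := (hI ▸ Nat.unpair_left_le P : I ≤ P).trans hPz
    have hQz : Q ≤ z := (hQ ▸ Nat.unpair_right_le P : Q ≤ P).trans hPz
    have hJz : J ≤ z := (hJ ▸ Nat.unpair_left_le Q : J ≤ Q).trans hQz
    have hLz : L ≤ z := (hL ▸ Nat.unpair_right_le Q : L ≤ Q).trans hQz
    rw [rz_Dg hc b z D I J L hD (by rw [hP, hI]) (by rw [hP, hQ, hJ]) (by rw [hP, hQ, hL])]
    constructor
    · rintro ⟨d, p, i, q, j, l, u, v, w, g1, g2, g3, b1, b2, b3, hh⟩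
      rw [hG2, hD, hP] at g1
      obtain ⟨rfl, rfl⟩ := g1
      rw [hG2, hI, hQ] at g2
      obtain ⟨rfl, rfl⟩ := g2
      rw [hG2, hJ, hL] at g3
      obtain ⟨rfl, rfl⟩ := g3
      have e1 : u = b I := beta_unique hc.disc a c (I : M) _ _ b1 (hβ I hIz)
      have e2 : v = b J := beta_unique hc.disc a c (J : M) _ _ b2 (hβ J hJz)
      have e3 : w = b L := beta_unique hc.disc a c (L : M) _ _ b3 (hβ L hLz)
      rw [e1, e2, e3] at hh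
      simp only [Nat.cast_inj] at hh
      exact hh
    · intro hh
      refine ⟨D, P, I, Q, J, L, b I, b J, b L, ?_, ?_, ?_, hβ I hIz, hβ J hJz, hβ L hLz, ?_⟩
      · rw [hG2, hD, hP]
        exact ⟨rfl, rfl⟩
      · rw [hG2, hI, hQ]
        exact ⟨rfl, rfl⟩
      · rw [hG2, hJ, hL]
        exact ⟨rfl, rfl⟩
      · simp only [Nat.cast_inj]
        exact hh

end Pool.Agent.KS6_47.SJ.H227.EN
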