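import Pool.Agent.KS6_47.SJ.H227.ENJ.Defs
import Pool.Agent.KS6_47.SJ.H227.ENJ.P_dfn_bool
import Pool.Agent.KS6_47.SJ.H227.ENJ.P_dfn_ex
import Pool.Agent.KS6_47.SJ.H227.ENJ.P_dfn_all
import Pool.Agent.KS6_47.SJ.H227.ENJ.P_dfn_subst
import Pool.Agent.KS6_47.SJ.H227.ENJ.P_trm_ops
import Pool.Agent.KS6_47.SJ.H227.ENJ.P_std_below
import Pool.Agent.KS6_47.SJ.H227.ENJ.P_beta_unique
import Pool.Agent.KS6_47.SJ.H227.ENJ.P_beta_exists
import Pool.Agent.KS6_47.SJ.H227.ENJ.P_dfn_beta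
import Pool.Agent.KS6_47.SJ.H227.ENJ.P_repF_pair

set_option autoImplicit false

open FirstOrder FirstOrder.Language


namespace Pool.Agent.KS6_47.SJ.H227.EN



theorem h400_s2 {M : Type} [LA.Structure M] (R : M → M → Prop)
    (h : Dfn (fun x : ℕ → M => R (x 0) (x 1))) (f1 f2 : (ℕ → M) → M) (h1 : Trm f1) (h2 : Trm f2) :
    Dfn (fun x => R (f1 x) (f2 x)) := by
  have h9 := dfn_subst (fun x => R (x 0) (x 1)) h (fun i => if i = 0 then f1 else f2) (by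
    intro i
    by_cases hi : i = 0
    · rw [if_pos hi]; exact h1
    · rw [if_neg hi]; exact h2)
  exact h9

theorem h400_s3 {M : Type} [LA.Structure M] (R : M → M → M → Prop)
    (h : Dfn (fun x : ℕ → M => R (x 0) (x 1) (x 2))) (f1 f2 f3 : (ℕ → M) → M) (h1 : Trm f1)
    (h2 : Trm f2) (h3 : Trm f3) :
    Dfn (fun x => R (f1 x) (f2 x) (f3 x)) := by
  have h9 := dfn_subst (fun x => R (x 0) (x 1) (x 2)) h
    (fun i => if i = 0 then f1 else if i = 1 then f2 else f3) (by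
    intro i
    by_cases hi : i = 0
    · rw [if_pos hi]; exact h1
    · rw [if_neg hi]
      by_cases hi2 : i = 1
      · rw [if_pos hi2]; exact h2
      · rw [if_neg hi2]; exact h3)
  exact h9

theorem h400_s4 {M : Type} [LA.Structure M] (R : M → M → M → M → Prop)
    (h : Dfn (fun x : ℕ → M => R (x 0) (x 1) (x 2) (x 3))) (f1 f2 f3 f4 : (ℕ → M) → M)
    (h1 : Trm f1) (h2 : Trm f2) (h3 : Trm f3) (h4 : Trm f4) :
    Dfn (fun x => R (f1 x) (f2 x) (f3 x) (f4 x)) := by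
  have h9 := dfn_subst (fun x => R (x 0) (x 1) (x 2) (x 3)) h
    (fun i => if i = 0 then f1 else if i = 1 then f2 else if i = 2 then f3 else f4) (by
    intro i
    by_cases hi : i = 0
    · rw [if_pos hi]; exact h1
    · rw [if_neg hi]
      by_cases hi2 : i = 1
      · rw [if_pos hi2]; exact h2
      · rw [if_neg hi2]
        by_cases hi3 : i = 2
        · rw [if_pos hi3]; exact h3
        · rw [if_neg hi3]; exact h4)
  exact h9

/-- primitive recursion step, see `Nat.Primrec.prec` -/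
theorem repF_prec {M : Type} [CommSemiring M] [LinearOrder M] [IsStrictOrderedRing M]
    [CanonicallyOrderedAdd M] [LA.Structure M] (hc : Compat M) (f g : ℕ → ℕ) (hf : RepF M f)
    (hg : RepF M g) :
    RepF M (Nat.unpaired fun z n => n.rec (f z) fun y IH => g (Nat.pair z (Nat.pair y IH))) := by
  obtain ⟨Gf, hGf, hf'⟩ := hf
  obtain ⟨Gg, hGg, hg'⟩ := hg
  obtain ⟨P, hP, hP1, hP2⟩ := repF_pair hc
  obtain ⟨hvar, hnat, hadd, hmul, heq, hlt, hle⟩ := trm_ops hc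
  obtain ⟨-, hnot, hand, hor, himp, hiff⟩ := dfn_bool (M := M)
  have hzero : Trm (fun _ : ℕ → M => (0 : M)) := by simpa using hnat 0
  have hone : Trm (fun _ : ℕ → M => (1 : M)) := by simpa using hnat 1
  have hbeta := dfn_beta hc
  refine ⟨fun x y => ∃ z, ∃ n, ∃ a, ∃ c, P z n x ∧ (∃ v, Beta a c 0 v ∧ Gf z v) ∧
    (∀ i, i < n → ∃ u, ∃ w, ∃ p, ∃ q, Beta a c i u ∧ Beta a c (i + 1) w ∧ P i u p ∧ P z p q ∧
      Gg q w) ∧ Beta a c n y, ?_, ?_⟩
  · refine dfn_ex (fun x z => ∃ n, ∃ a, ∃ c, P z n (x 0) ∧ (∃ v, Beta a c 0 v ∧ Gf z v) ∧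
      (∀ i, i < n → ∃ u, ∃ w, ∃ p, ∃ q, Beta a c i u ∧ Beta a c (i + 1) w ∧ P i u p ∧ P z p q ∧
      Gg q w) ∧ Beta a c n (x 1)) 2 (fun _ _ _ => Iff.rfl) ?_
    refine dfn_ex (fun x n => ∃ a, ∃ c, P (x 2) n (x 0) ∧ (∃ v, Beta a c 0 v ∧ Gf (x 2) v) ∧
      (∀ i, i < n → ∃ u, ∃ w, ∃ p, ∃ q, Beta a c i u ∧ Beta a c (i + 1) w ∧ P i u p ∧
      P (x 2) p q ∧ Gg q w) ∧ Beta a c n (x 1)) 3 (fun _ _ _ => Iff.rfl) ?_
    refine dfn_ex (fun x a => ∃ c, P (x 2) (x 3) (x 0) ∧ (∃ v, Beta a c 0 v ∧ Gf (x 2) v) ∧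
      (∀ i, i < (x 3) → ∃ u, ∃ w, ∃ p, ∃ q, Beta a c i u ∧ Beta a c (i + 1) w ∧ P i u p ∧
      P (x 2) p q ∧ Gg q w) ∧ Beta a c (x 3) (x 1)) 4 (fun _ _ _ => Iff.rfl) ?_
    refine dfn_ex (fun x c => P (x 2) (x 3) (x 0) ∧ (∃ v, Beta (x 4) c 0 v ∧ Gf (x 2) v) ∧
      (∀ i, i < (x 3) → ∃ u, ∃ w, ∃ p, ∃ q, Beta (x 4) c i u ∧ Beta (x 4) c (i + 1) w ∧ P i u p ∧
      P (x 2) p q ∧ Gg q w) ∧ Beta (x 4) c (x 3) (x 1)) 5 (fun _ _ _ => Iff.rfl) ?_
    refine hand _ _ (h400_s3 P hP _ _ _ (hvar 2) (hvar 3) (hvar 0)) ?_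
    refine hand _ _ ?_ (hand _ _ ?_ (h400_s4 Beta hbeta _ _ _ _ (hvar 4) (hvar 5) (hvar 3) (hvar 1)))
    · refine dfn_ex (fun x v => Beta (x 4) (x 5) 0 v ∧ Gf (x 2) v) 6 (fun _ _ _ => Iff.rfl) ?_
      exact hand _ _ (h400_s4 Beta hbeta _ _ _ _ (hvar 4) (hvar 5) hzero (hvar 6))
        (h400_s2 Gf hGf _ _ (hvar 2) (hvar 6))
    · refine dfn_all (fun x i => i < (x 3) → ∃ u, ∃ w, ∃ p, ∃ q, Beta (x 4) (x 5) i u ∧
        Beta (x 4) (x 5) (i + 1) w ∧ P i u p ∧ P (x 2) p q ∧ Gg q w) 6 (fun _ _ _ => Iff.rfl) ?_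
      refine himp _ _ (hlt _ _ (hvar 6) (hvar 3)) ?_
      refine dfn_ex (fun x u => ∃ w, ∃ p, ∃ q, Beta (x 4) (x 5) (x 6) u ∧
        Beta (x 4) (x 5) ((x 6) + 1) w ∧ P (x 6) u p ∧ P (x 2) p q ∧ Gg q w) 7
        (fun _ _ _ => Iff.rfl) ?_
      refine dfn_ex (fun x w => ∃ p, ∃ q, Beta (x 4) (x 5) (x 6) (x 7) ∧
        Beta (x 4) (x 5) ((x 6) + 1) w ∧ P (x 6) (x 7) p ∧ P (x 2) p q ∧ Gg q w) 8
        (fun _ _ _ => Iff.rfl) ?_
      refine dfn_ex (fun x p => ∃ q, Beta (x 4) (x 5) (x 6) (x 7) ∧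
        Beta (x 4) (x 5) ((x 6) + 1) (x 8) ∧ P (x 6) (x 7) p ∧ P (x 2) p q ∧ Gg q (x 8)) 9
        (fun _ _ _ => Iff.rfl) ?_
      refine dfn_ex (fun x q => Beta (x 4) (x 5) (x 6) (x 7) ∧
        Beta (x 4) (x 5) ((x 6) + 1) (x 8) ∧ P (x 6) (x 7) (x 9) ∧ P (x 2) (x 9) q ∧
        Gg q (x 8)) 10 (fun _ _ _ => Iff.rfl) ?_
      refine hand _ _ (h400_s4 Beta hbeta _ _ _ _ (hvar 4) (hvar 5) (hvar 6) (hvar 7)) ?_
      refine hand _ _ (h400_s4 Beta hbeta _ _ _ _ (hvar 4) (hvar 5) (hadd _ _ (hvar 6) hone)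
        (hvar 8)) ?_
      refine hand _ _ (h400_s3 P hP _ _ _ (hvar 6) (hvar 7) (hvar 9)) ?_
      exact hand _ _ (h400_s3 P hP _ _ _ (hvar 2) (hvar 9) (hvar 10))
        (h400_s2 Gg hGg _ _ (hvar 10) (hvar 8))
  · intro N y
    obtain ⟨z0, hz0⟩ : ∃ z0, z0 = (Nat.unpair N).1 := ⟨_, rfl⟩
    obtain ⟨n0, hn0⟩ : ∃ n0, n0 = (Nat.unpair N).2 := ⟨_, rfl⟩
    obtain ⟨r, hr⟩ : ∃ r : ℕ → ℕ, r = fun n =>
      (n.rec (f z0) fun y IH => g (Nat.pair z0 (Nat.pair y IH)) : ℕ) := ⟨_, rfl⟩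
    have hr0 : r 0 = f z0 := by rw [hr]; rfl
    have hrs : ∀ n, r (n + 1) = g (Nat.pair z0 (Nat.pair n (r n))) := by
      intro n; rw [hr]
    have hval : (Nat.unpaired (fun z n => (n.rec (f z) fun y IH =>
        g (Nat.pair z (Nat.pair y IH)) : ℕ)) N) = r n0 := by
      rw [hr, hn0, hz0]
      try rfl
    rw [hval]
    constructor
    · rintro ⟨z, n, a, c, hzn, ⟨v, hv1, hv2⟩, hstep, hy⟩
      obtain ⟨rfl, rfl⟩ := (hP2 z n N).mp hzn
      rw [← hz0] at hv2 hstep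
      rw [← hn0] at hstep hy
      have hall : ∀ i, i ≤ n0 → Beta a c (i : M) (r i : M) := by
        intro i
        induction i with
        | zero =>
          intro _
          rw [hr0, ← (hf' z0 v).mp hv2, Nat.cast_zero]
          exact hv1
        | succ i ih =>
          intro hi
          obtain ⟨u, w, p, q, hu, hw, hp, hq, hgq⟩ := hstep (i : M) (by exact_mod_cast hi)
          have hu2 : u = (r i : M) := beta_unique hc.disc a c i u _ hu (ih (by omega))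
          rw [hu2] at hp
          have hp2 := (hP1 i (r i) p).mp hp
          rw [hp2] at hq
          have hq2 := (hP1 z0 _ q).mp hq
          rw [hq2] at hgq
          have hw2 := (hg' _ w).mp hgq
          rw [hrs, ← hw2, Nat.cast_succ]
          exact hw
      exact beta_unique hc.disc a c _ y _ hy (hall n0 le_rfl)
    · intro hy
      obtain ⟨a, c, hac⟩ := beta_exists hc.disc (n0 + 1) (fun i => (r i : M))
      refine ⟨(z0 : M), (n0 : M), a, c, ?_, ?_, ?_, ?_⟩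
      · rw [hP2, hz0, hn0]
        exact ⟨rfl, rfl⟩
      · refine ⟨(r 0 : M), ?_, ?_⟩
        · have h := hac 0 (by omega)
          rw [Nat.cast_zero] at h
          exact h
        · rw [hf', hr0]
      · intro i hi
        obtain ⟨m, hm, rfl⟩ := std_below hc n0 i hi.le
        have hm2 : m < n0 := by exact_mod_cast hi
        refine ⟨(r m : M), (r (m + 1) : M), (Nat.pair m (r m) : ℕ),
          (Nat.pair z0 (Nat.pair m (r m)) : ℕ), hac m (by omega), ?_, ?_, ?_, ?_⟩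
        · have h := hac (m + 1) (by omega)
          rw [Nat.cast_succ] at h
          exact h
        · exact (hP1 m (r m) _).mpr rfl
        · exact (hP1 z0 _ _).mpr rfl
        · rw [hg', hrs]
      · rw [hy]
        exact hac n0 (by omega)

end Pool.Agent.KS6_47.SJ.H227.EN
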