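import Pool.Agent.KS6_47.SJ.H227.ENJ.Defs
import Pool.Agent.KS6_47.SJ.H227.ENJ.P_dfn_bool
import Pool.Agent.KS6_47.SJ.H227.ENJ.P_dfn_ex
import Pool.Agent.KS6_47.SJ.H227.ENJ.P_dfn_subst
import Pool.Agent.KS6_47.SJ.H227.ENJ.P_trm_ops
import Pool.Agent.KS6_47.SJ.H227.ENJ.P_std_below
import Pool.Agent.KS6_47.SJ.H227.ENJ.P_repF_pair
import Pool.Agent.KS6_47.SJ.H227.ENJ.P_repF_prec

set_option autoImplicit false

open FirstOrder FirstOrder.Language


namespace Pool.Agent.KS6_47.SJ.H227.EN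



theorem aux_ren {M : Type} [CommSemiring M] [LinearOrder M] [LA.Structure M] (hc : Compat M)
    (R : (ℕ → M) → Prop) (h : Dfn R) (σ : ℕ → ℕ) : Dfn (fun x => R (fun i => x (σ i))) :=
  dfn_subst R h (fun i x => x (σ i)) (fun i => (trm_ops hc).1 (σ i))

theorem aux_ren2 {M : Type} [CommSemiring M] [LinearOrder M] [LA.Structure M] (hc : Compat M)
    (G : M → M → Prop) (h : Dfn (fun x : ℕ → M => G (x 0) (x 1))) (i j : ℕ) :
    Dfn (fun x : ℕ → M => G (x i) (x j)) := by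
  have h1 := aux_ren hc _ h (fun k => if k = 0 then i else j)
  simpa using h1

theorem aux_ren3 {M : Type} [CommSemiring M] [LinearOrder M] [LA.Structure M] (hc : Compat M)
    (G : M → M → M → Prop) (h : Dfn (fun x : ℕ → M => G (x 0) (x 1) (x 2))) (i j k : ℕ) :
    Dfn (fun x : ℕ → M => G (x i) (x j) (x k)) := by
  have h1 := aux_ren hc _ h (fun l => if l = 0 then i else if l = 1 then j else k)
  simpa using h1

/-- primitive recursive functions are represented -/
theorem repF_primrec {M : Type} [CommSemiring M] [LinearOrder M] [IsStrictOrderedRing M]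
    [CanonicallyOrderedAdd M] [LA.Structure M] (hc : Compat M) (f : ℕ → ℕ) (hf : Nat.Primrec f) :
    RepF M f := by
  obtain ⟨P, hPd, hP1, hP2⟩ := repF_pair (M := M) hc
  have hconj := (dfn_bool (M := M)).2.2.1
  have hP := aux_ren3 hc P hPd
  have hT := trm_ops (M := M) hc
  induction hf with
  | zero =>
    refine ⟨fun _ y => y = ((0 : ℕ) : M), ?_, ?_⟩
    · exact hT.2.2.2.2.1 _ _ (hT.1 1) (hT.2.1 0)
    · intro n y
      exact Iff.rfl
  | succ =>
    refine ⟨fun x y => y = x + ((1 : ℕ) : M), ?_, ?_⟩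
    · exact hT.2.2.2.2.1 _ _ (hT.1 1) (hT.2.2.1 _ _ (hT.1 0) (hT.2.1 1))
    · intro n y
      show y = (n : M) + ((1 : ℕ) : M) ↔ y = ((n + 1 : ℕ) : M)
      rw [← Nat.cast_add]
  | left =>
    refine ⟨fun x y => ∃ b, P y b x, ?_, ?_⟩
    · apply dfn_ex (fun (x : ℕ → M) b => P (x 1) b (x 0)) 2
      · intro x y v
        simp [Function.update]
      · exact hP 1 2 0
    · intro n y
      constructor
      · rintro ⟨b, hb⟩
        exact ((hP2 _ _ _).1 hb).1
      · intro h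
        exact ⟨_, (hP2 _ _ _).2 ⟨h, rfl⟩⟩
  | right =>
    refine ⟨fun x y => ∃ a, P a y x, ?_, ?_⟩
    · apply dfn_ex (fun (x : ℕ → M) a => P a (x 1) (x 0)) 2
      · intro x y v
        simp [Function.update]
      · exact hP 2 1 0
    · intro n y
      constructor
      · rintro ⟨b, hb⟩
        exact ((hP2 _ _ _).1 hb).2
      · intro h
        exact ⟨_, (hP2 _ _ _).2 ⟨rfl, h⟩⟩
  | pair _ _ ihf ihg =>
    obtain ⟨F, hFd, hF⟩ := ihf
    obtain ⟨G, hGd, hG⟩ := ihg
    refine ⟨fun x y => ∃ a, ∃ b, F x a ∧ G x b ∧ P a b y, ?_, ?_⟩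
    · apply dfn_ex (fun (x : ℕ → M) a => ∃ b, F (x 0) a ∧ G (x 0) b ∧ P a b (x 1)) 2
      · intro x y v
        simp [Function.update]
      · apply dfn_ex (fun (x : ℕ → M) b => F (x 0) (x 2) ∧ G (x 0) b ∧ P (x 2) b (x 1)) 3
        · intro x y v
          simp [Function.update]
        · exact hconj _ _ (aux_ren2 hc F hFd 0 2) (hconj _ _ (aux_ren2 hc G hGd 0 3) (hP 2 3 1))
    · intro n y
      constructor
      · rintro ⟨a, b, h1, h2, h3⟩
        rw [(hF _ _).1 h1, (hG _ _).1 h2] at h3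
        exact (hP1 _ _ _).1 h3
      · intro h
        exact ⟨_, _, (hF _ _).2 rfl, (hG _ _).2 rfl, (hP1 _ _ _).2 h⟩
  | comp _ _ ihf ihg =>
    obtain ⟨F, hFd, hF⟩ := ihf
    obtain ⟨G, hGd, hG⟩ := ihg
    refine ⟨fun x y => ∃ a, G x a ∧ F a y, ?_, ?_⟩
    · apply dfn_ex (fun (x : ℕ → M) a => G (x 0) a ∧ F a (x 1)) 2
      · intro x y v
        simp [Function.update]
      · exact hconj _ _ (aux_ren2 hc G hGd 0 2) (aux_ren2 hc F hFd 2 1)
    · intro n y
      constructor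
      · rintro ⟨a, h1, h2⟩
        rw [(hG _ _).1 h1] at h2
        exact (hF _ _).1 h2
      · intro h
        exact ⟨_, (hG _ _).2 rfl, (hF _ _).2 h⟩
  | prec _ _ ihf ihg => exact repF_prec hc _ _ ihf ihg

end Pool.Agent.KS6_47.SJ.H227.EN
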